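import Mathlib

namespace Pool.Agent.Results.MP_590da2_gt.Nonabelian

section Defs

variable {g : Type} [LieRing g] [LieAlgebra ℝ g]

/-- `J² = -I` and the Nijenhuis tensor vanishes. -/
def IsComplexStr (J : Module.End ℝ g) : Prop :=
  J * J = -1 ∧ ∀ X Y : g, ⁅X, Y⁆ + J (⁅J X, Y⁆ + ⁅X, J Y⁆) - ⁅J X, J Y⁆ = 0

def IsHypercomplex (J₁ J₂ J₃ : Module.End ℝ g) : Prop :=
  IsComplexStr J₁ ∧ IsComplexStr J₂ ∧ IsComplexStr J₃ ∧ J₁ * J₂ = J₃ ∧ -(J₂ * J₁) = J₃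

/-- The Obata connection `∇_X Y = ½([X,Y] + J₁[J₁X,Y] - J₂[X,J₂Y] + J₃[J₁X,J₂Y])`. -/
noncomputable def obata (J₁ J₂ J₃ : Module.End ℝ g) (X : g) : Module.End ℝ g :=
  (1 / 2 : ℝ) • (LieAlgebra.ad ℝ g X + J₁ * LieAlgebra.ad ℝ g (J₁ X) -
    J₂ * LieAlgebra.ad ℝ g X * J₂ + J₃ * LieAlgebra.ad ℝ g (J₁ X) * J₂)

/-- The curvature `R(X,Y) = [∇_X, ∇_Y] - ∇_{[X,Y]}` of a left-invariant connection. -/
def curv (D : g → Module.End ℝ g) (X Y : g) : Module.End ℝ g :=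
  D X * D Y - D Y * D X - D ⁅X, Y⁆

/-- The holonomy algebra of a left-invariant connection: the smallest Lie subalgebra of `End g`
that contains all `R(X,Y)` and is closed under commutators with all `∇_Z`. -/
def hol (D : g → Module.End ℝ g) : Submodule ℝ (Module.End ℝ g) :=
  sInf {h | (∀ X Y, curv D X Y ∈ h) ∧ (∀ Z, ∀ A ∈ h, D Z * A - A * D Z ∈ h) ∧
    ∀ A ∈ h, ∀ B ∈ h, A * B - B * A ∈ h}

end Defs

def b (u v : Fin 4 → ℝ) : Fin 4 → ℝ :=
  ![0, 2 * (u 0 * v 1 - u 1 * v 0) + (u 3 * v 2 - u 2 * v 3), u 0 * v 2 - u 2 * v 0,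
    u 0 * v 3 - u 3 * v 0]

def cv (n : (Fin 4 → ℝ) → (Fin 4 → ℝ) → Fin 4 → ℝ) (X Y : Fin 5 → Fin 4 → ℝ) :
    Fin 5 → Fin 4 → ℝ :=
  ![0, n (X 0) (Y 0), n (X 0) (Y 1) + n (X 1) (Y 0),
    n (X 0) (Y 2) + n (X 1) (Y 1) + n (X 2) (Y 0),
    n (X 0) (Y 3) + n (X 1) (Y 2) + n (X 2) (Y 1) + n (X 3) (Y 0)]

section
variable (n : (Fin 4 → ℝ) → (Fin 4 → ℝ) → Fin 4 → ℝ) (X Y : Fin 5 → Fin 4 → ℝ) (j : Fin 4)
theorem cv0 : cv n X Y 0 j = 0 := rfl
theorem cv1 : cv n X Y 1 j = n (X 0) (Y 0) j := rfl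
theorem cv2 : cv n X Y 2 j = n (X 0) (Y 1) j + n (X 1) (Y 0) j := rfl
theorem cv3 : cv n X Y 3 j = n (X 0) (Y 2) j + n (X 1) (Y 1) j + n (X 2) (Y 0) j := rfl
theorem cv4 : cv n X Y 4 j =
    n (X 0) (Y 3) j + n (X 1) (Y 2) j + n (X 2) (Y 1) j + n (X 3) (Y 0) j := rfl
variable (u v : Fin 4 → ℝ)
theorem b0 : b u v 0 = 0 := rfl
theorem b1 : b u v 1 = 2 * (u 0 * v 1 - u 1 * v 0) + (u 3 * v 2 - u 2 * v 3) := rfl
theorem b2 : b u v 2 = u 0 * v 2 - u 2 * v 0 := rfl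
theorem b3 : b u v 3 = u 0 * v 3 - u 3 * v 0 := rfl
end

theorem all5 {P : Fin 5 → Prop} (h0 : P 0) (h1 : P 1) (h2 : P 2) (h3 : P 3) (h4 : P 4) (i : Fin 5) :
    P i := by fin_cases i <;> assumption

theorem all4 {P : Fin 4 → Prop} (h0 : P 0) (h1 : P 1) (h2 : P 2) (h3 : P 3) (i : Fin 4) :
    P i := by fin_cases i <;> assumption

def G : Type := Fin 5 → Fin 4 → ℝ

instance : AddCommGroup G := inferInstanceAs (AddCommGroup (Fin 5 → Fin 4 → ℝ))
noncomputable instance : Module ℝ G := inferInstanceAs (Module ℝ (Fin 5 → Fin 4 → ℝ))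
instance : Module.Finite ℝ G := inferInstanceAs (Module.Finite ℝ (Fin 5 → Fin 4 → ℝ))

theorem G.ext {X Y : G} (h : ∀ i j, X i j = Y i j) : X = Y := funext fun i => funext (h i)

theorem add_ap (X Y : G) (i : Fin 5) (j : Fin 4) : (X + Y) i j = X i j + Y i j := rfl
theorem sub_ap (X Y : G) (i : Fin 5) (j : Fin 4) : (X - Y) i j = X i j - Y i j := rfl
theorem neg_ap (X : G) (i : Fin 5) (j : Fin 4) : (-X) i j = - X i j := rfl
theorem zero_ap (i : Fin 5) (j : Fin 4) : (0 : G) i j = 0 := rfl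
theorem smul_ap (c : ℝ) (X : G) (i : Fin 5) (j : Fin 4) : (c • X) i j = c * X i j := rfl

def br (X Y : G) : G := cv b X Y

instance : LieRing G where
  bracket := br
  add_lie X Y Z := G.ext fun i j => by
    change br (X + Y) Z i j = br X Z i j + br Y Z i j
    revert i j
    refine all5 ?_ ?_ ?_ ?_ ?_ <;> refine all4 ?_ ?_ ?_ ?_ <;>
      simp only [br, cv0, cv1, cv2, cv3, cv4, b0, b1, b2, b3, add_ap] <;> ring
  lie_add X Y Z := G.ext fun i j => by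
    change br X (Y + Z) i j = br X Y i j + br X Z i j
    revert i j
    refine all5 ?_ ?_ ?_ ?_ ?_ <;> refine all4 ?_ ?_ ?_ ?_ <;>
      simp only [br, cv0, cv1, cv2, cv3, cv4, b0, b1, b2, b3, add_ap] <;> ring
  lie_self X := G.ext fun i j => by
    change br X X i j = 0
    revert i j
    refine all5 ?_ ?_ ?_ ?_ ?_ <;> refine all4 ?_ ?_ ?_ ?_ <;>
      simp only [br, cv0, cv1, cv2, cv3, cv4, b0, b1, b2, b3] <;> ring
  leibniz_lie X Y Z := G.ext fun i j => by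
    change br X (br Y Z) i j = br (br X Y) Z i j + br Y (br X Z) i j
    revert i j
    refine all5 ?_ ?_ ?_ ?_ ?_ <;> refine all4 ?_ ?_ ?_ ?_ <;>
      simp only [br, cv0, cv1, cv2, cv3, cv4, b0, b1, b2, b3] <;> ring

theorem lie_eq (X Y : G) : ⁅X, Y⁆ = br X Y := rfl

noncomputable instance : LieAlgebra ℝ G where
  lie_smul c X Y := G.ext fun i j => by
    change br X (c • Y) i j = c * br X Y i j
    revert i j
    refine all5 ?_ ?_ ?_ ?_ ?_ <;> refine all4 ?_ ?_ ?_ ?_ <;>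
      simp only [br, cv0, cv1, cv2, cv3, cv4, b0, b1, b2, b3, smul_ap] <;> ring

def j1 (X : G) : G := fun i => ![- X i 1, X i 0, - X i 3, X i 2]
def j2 (X : G) : G := fun i => ![- X i 2, X i 3, X i 0, - X i 1]
def j3 (X : G) : G := fun i => ![- X i 3, - X i 2, X i 1, X i 0]

theorem j10 (X : G) (i : Fin 5) : j1 X i 0 = - X i 1 := rfl
theorem j11 (X : G) (i : Fin 5) : j1 X i 1 = X i 0 := rfl
theorem j12 (X : G) (i : Fin 5) : j1 X i 2 = - X i 3 := rfl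
theorem j13 (X : G) (i : Fin 5) : j1 X i 3 = X i 2 := rfl
theorem j20 (X : G) (i : Fin 5) : j2 X i 0 = - X i 2 := rfl
theorem j21 (X : G) (i : Fin 5) : j2 X i 1 = X i 3 := rfl
theorem j22 (X : G) (i : Fin 5) : j2 X i 2 = X i 0 := rfl
theorem j23 (X : G) (i : Fin 5) : j2 X i 3 = - X i 1 := rfl
theorem j30 (X : G) (i : Fin 5) : j3 X i 0 = - X i 3 := rfl
theorem j31 (X : G) (i : Fin 5) : j3 X i 1 = - X i 2 := rfl
theorem j32 (X : G) (i : Fin 5) : j3 X i 2 = X i 1 := rfl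
theorem j33 (X : G) (i : Fin 5) : j3 X i 3 = X i 0 := rfl

def J1 : Module.End ℝ G where
  toFun := j1
  map_add' X Y := G.ext fun i j => by fin_cases j <;> simp [j1, add_ap] <;> ring
  map_smul' c X := G.ext fun i j => by fin_cases j <;> simp [j1, smul_ap]

def J2 : Module.End ℝ G where
  toFun := j2
  map_add' X Y := G.ext fun i j => by fin_cases j <;> simp [j2, add_ap] <;> ring
  map_smul' c X := G.ext fun i j => by fin_cases j <;> simp [j2, smul_ap]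

def J3 : Module.End ℝ G where
  toFun := j3
  map_add' X Y := G.ext fun i j => by fin_cases j <;> simp [j3, add_ap] <;> ring
  map_smul' c X := G.ext fun i j => by fin_cases j <;> simp [j3, smul_ap]

theorem J1_ap (X : G) : J1 X = j1 X := rfl
theorem J2_ap (X : G) : J2 X = j2 X := rfl
theorem J3_ap (X : G) : J3 X = j3 X := rfl

theorem hyper : IsHypercomplex J1 J2 J3 := by
  refine ⟨⟨?_, fun X Y => G.ext fun i j => ?_⟩, ⟨?_, fun X Y => G.ext fun i j => ?_⟩,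
    ⟨?_, fun X Y => G.ext fun i j => ?_⟩, ?_, ?_⟩
  · refine LinearMap.ext fun X => G.ext fun i j => ?_
    fin_cases j <;> simp [J1_ap, j1, neg_ap]
  · simp only [J1_ap, lie_eq, add_ap, sub_ap, zero_ap]
    revert i j
    refine all5 ?_ ?_ ?_ ?_ ?_ <;> refine all4 ?_ ?_ ?_ ?_ <;>
      simp only [br, cv0, cv1, cv2, cv3, cv4, b0, b1, b2, b3, add_ap, j10, j11, j12, j13] <;> ring
  · refine LinearMap.ext fun X => G.ext fun i j => ?_
    fin_cases j <;> simp [J2_ap, j2, neg_ap]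
  · simp only [J2_ap, lie_eq, add_ap, sub_ap, zero_ap]
    revert i j
    refine all5 ?_ ?_ ?_ ?_ ?_ <;> refine all4 ?_ ?_ ?_ ?_ <;>
      simp only [br, cv0, cv1, cv2, cv3, cv4, b0, b1, b2, b3, add_ap, j20, j21, j22, j23] <;> ring
  · refine LinearMap.ext fun X => G.ext fun i j => ?_
    fin_cases j <;> simp [J3_ap, j3, neg_ap]
  · simp only [J3_ap, lie_eq, add_ap, sub_ap, zero_ap]
    revert i j
    refine all5 ?_ ?_ ?_ ?_ ?_ <;> refine all4 ?_ ?_ ?_ ?_ <;>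
      simp only [br, cv0, cv1, cv2, cv3, cv4, b0, b1, b2, b3, add_ap, j30, j31, j32, j33] <;> ring
  · refine LinearMap.ext fun X => G.ext fun i j => ?_
    fin_cases j <;> simp [J1_ap, J2_ap, J3_ap, j1, j2, j3]
  · refine LinearMap.ext fun X => G.ext fun i j => ?_
    fin_cases j <;> simp [J1_ap, J2_ap, J3_ap, j1, j2, j3, neg_ap]

theorem nilp : LieRing.IsNilpotent G := by
  refine (LieAlgebra.isNilpotent_iff_forall (R := ℝ)).2 fun X => ⟨5, ?_⟩
  have step : ∀ (k : ℕ) (Y : G), (∀ i : Fin 5, (i : ℕ) < k → Y i = 0) →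
      ∀ i : Fin 5, (i : ℕ) < k + 1 → (br X Y) i = 0 := by
    intro k Y hY i hi
    have hb : ∀ u, b u 0 = 0 := fun u => by ext j; fin_cases j <;> simp [b]
    fin_cases i
    · simp [br, cv]
    · have h0 := hY 0 (by simp at hi ⊢; omega)
      simp [br, cv, h0, hb]
    · have h0 := hY 0 (by simp at hi ⊢; omega)
      have h1 := hY 1 (by simp at hi ⊢; omega)
      simp [br, cv, h0, h1, hb]
    · have h0 := hY 0 (by simp at hi ⊢; omega)
      have h1 := hY 1 (by simp at hi ⊢; omega)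
      have h2 := hY 2 (by simp at hi ⊢; omega)
      simp [br, cv, h0, h1, h2, hb]
    · have h0 := hY 0 (by simp at hi ⊢; omega)
      have h1 := hY 1 (by simp at hi ⊢; omega)
      have h2 := hY 2 (by simp at hi ⊢; omega)
      have h3 := hY 3 (by simp at hi ⊢; omega)
      simp [br, cv, h0, h1, h2, h3, hb]
  have all : ∀ (k : ℕ) (Y : G) (i : Fin 5), (i : ℕ) < k → (LieAlgebra.ad ℝ G X ^ k) Y i = 0 := by
    intro k
    induction k with
    | zero => intro Y i hi; omega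
    | succ k ih =>
      intro Y i hi
      rw [pow_succ', Module.End.mul_apply, LieAlgebra.ad_apply, lie_eq]
      exact step k _ (ih Y) i hi
  exact LinearMap.ext fun Y => funext fun i => all 5 Y i i.2

noncomputable def nn (u v : Fin 4 → ℝ) : Fin 4 → ℝ :=
  ![(3 * u 0 * v 0 + u 1 * v 1 - u 2 * v 2 - u 3 * v 3) / 2,
    (3 * u 0 * v 1 - u 1 * v 0 - u 2 * v 3 + u 3 * v 2) / 2,
    (3 * u 0 * v 2 - u 1 * v 3 + u 2 * v 0 - u 3 * v 1) / 2,
    (3 * u 0 * v 3 + u 1 * v 2 + u 2 * v 1 + u 3 * v 0) / 2]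

theorem nn0 (u v : Fin 4 → ℝ) :
    nn u v 0 = (3 * u 0 * v 0 + u 1 * v 1 - u 2 * v 2 - u 3 * v 3) / 2 := rfl
theorem nn1 (u v : Fin 4 → ℝ) :
    nn u v 1 = (3 * u 0 * v 1 - u 1 * v 0 - u 2 * v 3 + u 3 * v 2) / 2 := rfl
theorem nn2 (u v : Fin 4 → ℝ) :
    nn u v 2 = (3 * u 0 * v 2 - u 1 * v 3 + u 2 * v 0 - u 3 * v 1) / 2 := rfl
theorem nn3 (u v : Fin 4 → ℝ) :
    nn u v 3 = (3 * u 0 * v 3 + u 1 * v 2 + u 2 * v 1 + u 3 * v 0) / 2 := rfl

noncomputable def nab (X Y : G) : G := cv nn X Y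

theorem obata_ap (X Y : G) : obata J1 J2 J3 X Y = nab X Y := by
  refine G.ext fun i j => ?_
  simp only [obata, LinearMap.smul_apply, LinearMap.add_apply, LinearMap.sub_apply,
    Module.End.mul_apply, LieAlgebra.ad_apply, lie_eq, J1_ap, J2_ap, J3_ap, smul_ap, add_ap, sub_ap]
  revert i j
  refine all5 ?_ ?_ ?_ ?_ ?_ <;> refine all4 ?_ ?_ ?_ ?_ <;>
    simp only [br, nab, cv0, cv1, cv2, cv3, cv4, b0, b1, b2, b3, nn0, nn1, nn2, nn3,
      j10, j11, j12, j13, j20, j21, j22, j23, j30, j31, j32, j33] <;> ring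

def ee (k : Fin 4) : G := fun i j => if i = 0 ∧ j = k then 1 else 0

theorem noncomm : curv (obata J1 J2 J3) (ee 0) (ee 1) * curv (obata J1 J2 J3) (ee 0) (ee 2) ≠
    curv (obata J1 J2 J3) (ee 0) (ee 2) * curv (obata J1 J2 J3) (ee 0) (ee 1) := by
  have hA : ∀ Y : G, curv (obata J1 J2 J3) (ee 0) (ee 1) Y 4 3 = - Y 2 2 ∧
      curv (obata J1 J2 J3) (ee 0) (ee 1) Y 2 1 = Y 0 0 := by
    intro Y
    simp only [curv, LinearMap.sub_apply, Module.End.mul_apply, obata_ap, lie_eq, sub_ap,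
      br, nab, cv0, cv1, cv2, cv3, cv4, b0, b1, b2, b3, nn0, nn1, nn2, nn3]
    simp [ee]
    constructor <;> ring
  have hB : ∀ Y : G, curv (obata J1 J2 J3) (ee 0) (ee 2) Y 4 3 = - Y 2 1 / 2 ∧
      curv (obata J1 J2 J3) (ee 0) (ee 2) Y 2 2 = - Y 0 0 / 2 := by
    intro Y
    simp only [curv, LinearMap.sub_apply, Module.End.mul_apply, obata_ap, lie_eq, sub_ap,
      br, nab, cv0, cv1, cv2, cv3, cv4, b0, b1, b2, b3, nn0, nn1, nn2, nn3]
    simp [ee]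
    constructor <;> ring
  intro h
  have h1 := congrArg (fun T : Module.End ℝ G => T (ee 0) 4 3) h
  simp only [Module.End.mul_apply, (hA _).1, (hA _).2, (hB _).1, (hB _).2] at h1
  simp [ee] at h1
  norm_num at h1

theorem result : ∃ (g : Type) (_ : LieRing g) (_ : LieAlgebra ℝ g) (J₁ J₂ J₃ : Module.End ℝ g),
    Module.finrank ℝ g = 20 ∧ LieRing.IsNilpotent g ∧ IsHypercomplex J₁ J₂ J₃ ∧
    (∃ X Y Z W : g, curv (obata J₁ J₂ J₃) X Y * curv (obata J₁ J₂ J₃) Z W ≠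
      curv (obata J₁ J₂ J₃) Z W * curv (obata J₁ J₂ J₃) X Y) ∧
    ¬ ∀ A ∈ hol (obata J₁ J₂ J₃), ∀ B ∈ hol (obata J₁ J₂ J₃), A * B = B * A := by
  refine ⟨G, inferInstance, inferInstance, J1, J2, J3, ?_, nilp, hyper, ⟨_, _, _, _, noncomm⟩,
    fun h => noncomm (h _ ?_ _ ?_)⟩
  · change Module.finrank ℝ (Fin 5 → Fin 4 → ℝ) = 20
    simp [Module.finrank_pi_fintype]
  · exact Submodule.mem_sInf.2 fun p hp => hp.1 _ _
  · exact Submodule.mem_sInf.2 fun p hp => hp.1 _ _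

end Pool.Agent.Results.MP_590da2_gt.Nonabelian
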